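import Mathlib

/-!
# The localised Grothendieck ring of varieties, its completion, and hypersurfaces: definitions

`K_0(Var_k)` is generated by the classes of the affine varieties (every variety is a disjoint union of
locally closed affine ones), with the relations `[X] = [V(f)] + [D(f)]`, `f ∈ O(X)`.
-/

set_option autoImplicit false

namespace Pool.Agent.T9h5.KV

open MvPolynomial

/-- An affine variety over `k`, given by its ring of functions: a reduced `k`-algebra of finite
type. -/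
structure Aff (k : Type) [Field k] : Type 1 where
  /-- the ring of functions -/
  O : Type
  [ring : CommRing O]
  [alg : Algebra k O]
  [fin : Algebra.FiniteType k O]
  [red : IsReduced O]

attribute [instance] Aff.ring Aff.alg Aff.fin Aff.red

section

variable {k : Type} [Field k]

/-- `X` and `Y` are isomorphic. -/
def Iso (X Y : Aff k) : Prop := Nonempty (X.O ≃ₐ[k] Y.O)

/-- `Y` is isomorphic to `X × A^1`. -/
def IsLine (X Y : Aff k) : Prop := Nonempty (Polynomial X.O ≃ₐ[k] Y.O)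

/-- `Z ≅ V(f)` (with its reduced structure) and `U ≅ D(f)` for a function `f` on `X`. -/
def Cut (X Z U : Aff k) : Prop :=
  ∃ (f : X.O) (π : X.O →ₐ[k] Z.O) (j : X.O →ₐ[k] U.O), Function.Surjective π ∧
    RingHom.ker π = (Ideal.span {f}).radical ∧
    @IsLocalization.Away X.O _ f U.O _ j.toRingHom.toAlgebra

variable (k)

/-- the relations between the symbols `[X] L^i` -/
inductive Rel : FreeAbelianGroup (Aff k × ℤ) → Prop
  | iso (X Y : Aff k) (i : ℤ) : Iso X Y → Rel (.of (X, i) - .of (Y, i))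
  | cut (X Z U : Aff k) (i : ℤ) : Cut X Z U → Rel (.of (X, i) - .of (Z, i) - .of (U, i))
  | line (X Y : Aff k) (i : ℤ) : IsLine X Y → Rel (.of (Y, i) - .of (X, i + 1))

/-- `M_k = K_0(Var_k)[L^(-1)]` (the additive group). -/
def M : Type 1 := FreeAbelianGroup (Aff k × ℤ) ⧸ AddSubgroup.closure {r | Rel k r}

noncomputable instance : AddCommGroup (M k) :=
  (inferInstance : AddCommGroup (FreeAbelianGroup (Aff k × ℤ) ⧸ AddSubgroup.closure {r | Rel k r}))

variable {k}

/-- `[X] L^i` -/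
noncomputable def cls (X : Aff k) (i : ℤ) : M k := QuotientAddGroup.mk (FreeAbelianGroup.of (X, i))

variable (k)

/-- `F^m M_k`, generated by the `[X] L^i` with `dim X + i ≤ -m`. -/
noncomputable def Fil (m : ℤ) : AddSubgroup (M k) :=
  AddSubgroup.closure {a | ∃ (X : Aff k) (i : ℤ) (D : ℕ),
    ringKrullDim X.O ≤ D ∧ (D : ℤ) + i ≤ -m ∧ a = cls X i}

/-- The elements of the completion `lim_m M_k / F^m M_k`: compatible families. -/
def Compatible (y : ∀ m : ℤ, M k ⧸ Fil k m) : Prop :=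
  ∀ m m' : ℤ, m ≤ m' → ∀ a : M k, (QuotientAddGroup.mk a : M k ⧸ Fil k m') = y m' →
    (QuotientAddGroup.mk a : M k ⧸ Fil k m) = y m

/-- The sequence `x` converges to `y` in the completion: for every `m`, `x_n` and `y` agree modulo
`F^m` for all large `n`. -/
def Tends (x : ℕ → M k) (y : ∀ m : ℤ, M k ⧸ Fil k m) : Prop :=
  ∀ m : ℤ, ∃ N : ℕ, ∀ n, N ≤ n → (QuotientAddGroup.mk (x n) : M k ⧸ Fil k m) = y m

/-- The sequence `x` has a limit in the completion. -/
def HasLimit (x : ℕ → M k) : Prop := ∃ y, Compatible k y ∧ Tends k x y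

/-- The affine space of dimension `j`. -/
noncomputable def affineSpace (j : ℕ) : Aff k := ⟨MvPolynomial (Fin j) k⟩

variable {k}

/-- `F(0,...,0,1,y_1,...,y_(n-i))`, with `i` zeros. -/
noncomputable def restr {n : ℕ} (i : ℕ) (F : MvPolynomial (Fin (n + 1)) k) :
    MvPolynomial (Fin (n - i)) k :=
  aeval (fun j : Fin (n + 1) =>
    if h : i < (j : ℕ) then X (⟨(j : ℕ) - i - 1, by omega⟩ : Fin (n - i))
    else if (j : ℕ) = i then 1 else 0) F

/-- The affine variety `F = 0`. -/
noncomputable def zeros {m : ℕ} (F : MvPolynomial (Fin m) k) : Aff k :=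
  letI : IsReduced (MvPolynomial (Fin m) k ⧸ (Ideal.span {F}).radical) :=
    (Ideal.isRadical_iff_quotient_reduced _).mp (Ideal.radical_isRadical _)
  ⟨MvPolynomial (Fin m) k ⧸ (Ideal.span {F}).radical⟩

/-- `F` defines a smooth hypersurface of degree `d` in `P^n`: `F` is homogeneous of degree `d`, and
the partial derivatives and `F` have no common zero `≠ 0` over the algebraic closure. -/
def IsSmooth {n : ℕ} (d : ℕ) (F : MvPolynomial (Fin (n + 1)) k) : Prop :=
  F.IsHomogeneous d ∧ ∀ x : Fin (n + 1) → AlgebraicClosure k, aeval x F = 0 →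
    (∀ i, aeval x (pderiv i F) = 0) → x = 0

/-- `x_n = ([H_n] - [P^(n-1)]) L^(-(n-1))`, where `H_n` is given by `F_n = 0` in `P^n`: `[H_n]` is the
sum of the classes of the strata `x_0 = ... = x_(i-1) = 0, x_i = 1`, `0 ≤ i ≤ n`, and
`[P^(n-1)] = 1 + L + ... + L^(n-1)`. -/
noncomputable def xseq (F : ∀ n, MvPolynomial (Fin (n + 1)) k) (n : ℕ) : M k :=
  ∑ i ∈ Finset.range (n + 1), cls (zeros (restr i (F n))) (1 - n) -
    ∑ j ∈ Finset.range n, cls (affineSpace k j) (1 - n)

end

/-- The virtual Poincaré polynomial `β(X) ∈ ℤ[u]` of the real points of the varieties over `k ⊆ ℝ`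
(McCrory and Parusiński). -/
structure VirtualPoincare (k : Type) [Field k] [Algebra k ℝ] where
  /-- the polynomial -/
  β : Aff k → Polynomial ℤ
  iso : ∀ X Y, Iso X Y → β X = β Y
  cut : ∀ X Z U, Cut X Z U → β X = β Z + β U
  line : ∀ X Y, IsLine X Y → β Y = Polynomial.X * β X
  point : ∀ X : Aff k, Nonempty (X.O ≃ₐ[k] k) → β X = 1
  /-- varieties without real points -/
  empty : ∀ X : Aff k, IsEmpty (X.O →ₐ[k] ℝ) → β X = 0
  degree : ∀ (X : Aff k) (D : ℕ), ringKrullDim X.O ≤ D → (β X).natDegree ≤ D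
  nonneg : ∀ (X : Aff k) (D : ℕ), ringKrullDim X.O ≤ D → 0 ≤ (β X).coeff D
  /-- a hypersurface in the affine space with a smooth real point -/
  smoothPoint : ∀ (m : ℕ) (f : MvPolynomial (Fin (m + 1)) k) (y : Fin (m + 1) → ℝ), aeval y f = 0 →
    (∃ i, aeval y (pderiv i f) ≠ 0) → 1 ≤ (β (zeros f)).coeff m

section

variable {k : Type} [Field k]

/-- `w_n → ∞` -/
def ToInfinity (w : ℕ → ℕ) : Prop := ∀ c, ∃ N, ∀ n, N ≤ n → c ≤ w n

/-- `w_n` is eventually constant -/
def EventuallyConstant (w : ℕ → ℕ) : Prop := ∃ c N, ∀ n, N ≤ n → w n = c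

/-- `F` has no real zero `≠ 0`, i.e. the hypersurface has no real points. -/
def NoRealPoints [Algebra k ℝ] {n : ℕ} (F : MvPolynomial (Fin (n + 1)) k) : Prop :=
  ∀ x : Fin (n + 1) → ℝ, aeval x F = 0 → x = 0

/-- The hypersurface has a smooth real point with `x_0 = 1`. -/
def HasRealPoint [Algebra k ℝ] {n : ℕ} (F : MvPolynomial (Fin (n + 1)) k) : Prop :=
  ∃ y : Fin (n - 0) → ℝ, aeval y (restr 0 F) = 0 ∧ ∃ i, aeval y (pderiv i (restr 0 F)) ≠ 0

variable (k)

/-- The quadratic form `∑_(l < w) x_l x_(n-l) + ∑_(w ≤ l ≤ n-w) x_l^2`, `2 w ≤ n + 1`; for `k ⊆ ℝ` its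
Witt index is `w`. -/
noncomputable def quad (n w : ℕ) : MvPolynomial (Fin (n + 1)) k :=
  ∑ l ∈ Finset.univ.filter (fun l : Fin (n + 1) => (l : ℕ) < w), X l * X l.rev +
    ∑ l ∈ Finset.univ.filter (fun l : Fin (n + 1) => w ≤ (l : ℕ) ∧ (l : ℕ) + w ≤ n), X l ^ 2

/-- `x_0^d + ... + x_n^d` -/
noncomputable def fermat (d n : ℕ) : MvPolynomial (Fin (n + 1)) k := ∑ i, X i ^ d

end

end Pool.Agent.T9h5.KV
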