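import Pool.Agent.T9h5.KV.Strata

/-!
# Hypersurfaces of even degree
-/

set_option autoImplicit false

namespace Pool.Agent.T9h5.KV

open MvPolynomial

section

variable (k : Type) [Field k]

/-- `∑ c_i x_i^d` -/
noncomputable def diag (d n : ℕ) (c : Fin (n + 1) → k) : MvPolynomial (Fin (n + 1)) k :=
  ∑ i, C (c i) * X i ^ d

theorem diag_smooth [CharZero k] (d n : ℕ) (hd : 2 ≤ d) (c : Fin (n + 1) → k)
    (hc : ∀ i, c i ≠ 0) : IsSmooth d (diag k d n c) := by
  refine ⟨?_, ?_⟩
  · unfold diag
    apply MvPolynomial.IsHomogeneous.sum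
    intro i _
    simpa using (isHomogeneous_C (Fin (n + 1)) (c i)).mul ((isHomogeneous_X k i).pow d)
  · intro x _ h
    funext i
    have h1 := h i
    have h2 : pderiv i (diag k d n c) =
        C (c i) * ((d : MvPolynomial (Fin (n + 1)) k) * X i ^ (d - 1)) := by
      unfold diag
      rw [map_sum, Finset.sum_eq_single i]
      · rw [Derivation.leibniz, Derivation.leibniz_pow, pderiv_X_self, pderiv_C]
        simp [nsmul_eq_mul]
      · intro j _ hj
        rw [Derivation.leibniz, Derivation.leibniz_pow, pderiv_X_of_ne hj, pderiv_C]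
        simp
      · intro h
        exact absurd (Finset.mem_univ _) h
    rw [h2, map_mul, map_mul, map_natCast, map_pow, aeval_X, aeval_C] at h1
    have : CharZero (AlgebraicClosure k) := charZero_of_injective_algebraMap
      (algebraMap k (AlgebraicClosure k)).injective
    rcases mul_eq_zero.1 h1 with h3 | h3
    · exact absurd h3 ((map_ne_zero _).2 (hc i))
    rcases mul_eq_zero.1 h3 with h3 | h3
    · exfalso
      have : (d : AlgebraicClosure k) ≠ 0 := by exact_mod_cast (by omega : d ≠ 0)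
      exact this h3
    · exact pow_eq_zero_iff (by omega) |>.1 h3

/-- `x_0^d + ... + x_(n-1)^d - x_n^d` -/
noncomputable def real (d n : ℕ) : MvPolynomial (Fin (n + 1)) k :=
  diag k d n (fun i => if (i : ℕ) = n then -1 else 1)

end

section

variable {k : Type} [Field k] [Algebra k ℝ]

theorem fermat_noReal (d n : ℕ) (hd : Even d) (hd0 : 2 ≤ d) : NoRealPoints (fermat k d n) := by
  intro x hx
  unfold fermat at hx
  rw [map_sum, Finset.sum_eq_zero_iff_of_nonneg] at hx
  · funext i
    have h1 := hx i (Finset.mem_univ _)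
    rw [map_pow, aeval_X] at h1
    exact pow_eq_zero_iff (by omega) |>.1 h1
  · intro i _
    rw [map_pow]
    exact hd.pow_nonneg _

omit [Algebra k ℝ] in
theorem restr_diag (d n i : ℕ) (c : Fin (n + 1) → k) : restr i (diag k d n c) =
    ∑ l, C (c l) * sub k i l ^ d := by
  have h1 : ∀ F : MvPolynomial (Fin (n + 1)) k, restr i F = aeval (sub k i) F := fun _ => rfl
  rw [h1]
  unfold diag
  rw [map_sum]
  apply Finset.sum_congr rfl
  intro l _
  rw [map_mul, map_pow, aeval_X, aeval_C]
  rfl

theorem real_hasReal (d m : ℕ) (hd0 : 2 ≤ d) : HasRealPoint (real k d (m + 1)) := by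
  classical
  let y : Fin (m + 1 - 0) → ℝ := fun l => if (l : ℕ) = m then 1 else 0
  have hpt : ∀ l : Fin (m + 2), pt 0 y l = if (l : ℕ) = 0 ∨ (l : ℕ) = m + 1 then 1 else 0 := by
    intro l
    unfold pt
    by_cases h : 0 < (l : ℕ)
    · rw [dif_pos h]
      change (if (l : ℕ) - 0 - 1 = m then (1 : ℝ) else 0) = _
      by_cases h1 : (l : ℕ) = m + 1
      · rw [if_pos (by omega), if_pos (by omega)]
      · rw [if_neg (by omega), if_neg (by omega)]
    · rw [dif_neg h, if_pos (by omega), if_pos (by omega)]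
  refine ⟨y, ?_, ⟨m, by omega⟩, ?_⟩
  · rw [aeval_restr]
    unfold real diag
    rw [map_sum, Fin.sum_univ_succ, Fin.sum_univ_castSucc]
    have h1 : ∀ l : Fin m, aeval (pt 0 y) (C (if ((l.castSucc.succ : Fin (m + 2)) : ℕ) = m + 1 then
        (-1 : k) else 1) * X (l.castSucc.succ : Fin (m + 2)) ^ d) = 0 := by
      intro l
      have h3 : pt 0 y (l.castSucc.succ : Fin (m + 2)) = 0 := by
        rw [hpt, if_neg]
        have := l.2
        rw [Fin.val_succ, Fin.val_castSucc]
        omega
      rw [map_mul, map_pow, aeval_X, h3, zero_pow (by omega), mul_zero]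
    rw [Finset.sum_congr rfl fun l _ => h1 l, Finset.sum_const_zero, zero_add]
    rw [map_mul, map_mul, map_pow, map_pow, aeval_X, aeval_X, hpt, hpt, aeval_C, aeval_C]
    simp
  · unfold real
    rw [restr_diag, map_sum, map_sum, Finset.sum_eq_single (Fin.last (m + 1))]
    · have h1 : sub k 0 (Fin.last (m + 1)) = X (⟨m, by omega⟩ : Fin (m + 1 - 0)) := by
        unfold sub
        rw [dif_pos (by simp)]
        rfl
      rw [h1, Derivation.leibniz, Derivation.leibniz_pow, pderiv_X_self, pderiv_C]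
      simp only [Fin.val_last, if_true, smul_eq_mul, nsmul_eq_mul, mul_one, mul_zero, add_zero,
        map_mul, map_natCast, map_pow, aeval_X, map_neg, map_one]
      have h2 : y ⟨m, by omega⟩ = 1 := by simp [y]
      rw [h2]
      have h3 : (d : ℝ) ≠ 0 := by exact_mod_cast (by omega : d ≠ 0)
      simpa using h3
    · intro l _ hl
      have hl' : (l : ℕ) ≠ m + 1 := fun h => hl (Fin.ext h)
      have h1 : pderiv (⟨m, by omega⟩ : Fin (m + 1 - 0)) (sub k 0 l) = 0 := by
        unfold sub
        by_cases h : 0 < (l : ℕ)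
        · rw [dif_pos h, pderiv_X_of_ne]
          intro h2
          have h3 := congrArg Fin.val h2
          simp only at h3
          omega
        · rw [dif_neg h, if_pos (by omega)]
          simp
      rw [Derivation.leibniz, Derivation.leibniz_pow, h1, pderiv_C]
      simp
    · intro h
      exact absurd (Finset.mem_univ _) h

end

section

variable {k : Type} [Field k] [Algebra k ℝ] (V : VirtualPoincare k)

theorem phi_real {n : ℕ} (hn : 1 ≤ n) (F : ∀ n, MvPolynomial (Fin (n + 1)) k)
    (h : HasRealPoint (F n)) : 0 ≤ phi V 0 (xseq F n) := by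
  obtain ⟨m, rfl⟩ : ∃ m, n = m + 1 := ⟨n - 1, by omega⟩
  unfold xseq
  rw [map_sub, phi_proj V 0 (m + 1) (by omega), map_sum, Finset.sum_range_succ']
  have hcf : ∀ P : Polynomial ℤ, cf P (1 - ((m + 1 : ℕ) : ℤ) + (0 : ℕ)) = P.coeff m := by
    intro P
    unfold cf
    rw [if_pos (by push_cast; omega)]
    congr 1
    push_cast
    omega
  have h1 : 0 ≤ ∑ i ∈ Finset.range (m + 1),
      phi V 0 (cls (zeros (restr (i + 1) (F (m + 1)))) (1 - ((m + 1 : ℕ) : ℤ))) := by
    apply Finset.sum_nonneg
    intro i _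
    rw [phi_cls, hcf]
    apply V.nonneg
    refine (dim_zeros _).trans ?_
    exact_mod_cast (by omega : m + 1 - (i + 1) ≤ m)
  have h2 : 1 ≤ phi V 0 (cls (zeros (restr 0 (F (m + 1)))) (1 - ((m + 1 : ℕ) : ℤ))) := by
    obtain ⟨y, hy, i, hi⟩ := h
    rw [phi_cls, hcf]
    exact V.smoothPoint m (restr 0 (F (m + 1))) y hy ⟨i, hi⟩
  omega

include V in
theorem no_limit (F : ∀ n, MvPolynomial (Fin (n + 1)) k)
    (h : ∀ N, ∃ n, N ≤ n ∧ NoRealPoints (F n)) (h' : ∀ N, ∃ n, N ≤ n ∧ HasRealPoint (F n)) :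
    ¬ HasLimit k (xseq F) := by
  intro hl
  obtain ⟨c, N, hN⟩ := eq_of_hasLimit V _ hl 0
  obtain ⟨n, hn, h1⟩ := h (max N 1)
  obtain ⟨n', hn', h2⟩ := h' (max N 1)
  have e1 := hN n ((le_max_left _ _).trans hn)
  rw [phi_xseq_aniso V F 0 n ((le_max_right N 1).trans hn) h1] at e1
  have e2 := hN n' ((le_max_left _ _).trans hn')
  have e3 := phi_real V ((le_max_right N 1).trans hn') F h2
  omega

include V in
theorem not_zero (F : ∀ n, MvPolynomial (Fin (n + 1)) k)
    (h : ∀ N, ∃ n, N ≤ n ∧ NoRealPoints (F n)) : ¬ Tends k (xseq F) 0 := by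
  intro hl
  obtain ⟨N, hN⟩ := eq_of_tends_zero V _ hl 0
  obtain ⟨n, hn, h1⟩ := h (max N 1)
  have e1 := hN n ((le_max_left _ _).trans hn)
  rw [phi_xseq_aniso V F 0 n ((le_max_right N 1).trans hn) h1] at e1
  omega

end

end Pool.Agent.T9h5.KV
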