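import Pool.Agent.T9h5.KV.Defs

/-!
# Coefficients of the virtual Poincaré polynomial as homomorphisms on the completion
-/

set_option autoImplicit false

namespace Pool.Agent.T9h5.KV

open MvPolynomial

section hom

variable {k : Type} [Field k] [Algebra k ℝ] (V : VirtualPoincare k)

/-- the coefficient of `u^0` in `P u^i` -/
noncomputable def cf (P : Polynomial ℤ) (i : ℤ) : ℤ := if i ≤ 0 then P.coeff (-i).toNat else 0

theorem cf_zero (i : ℤ) : cf 0 i = 0 := by
  unfold cf
  split_ifs <;> simp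

theorem cf_add (P Q : Polynomial ℤ) (i : ℤ) : cf (P + Q) i = cf P i + cf Q i := by
  unfold cf
  split_ifs <;> simp

theorem cf_X_mul (P : Polynomial ℤ) (i : ℤ) : cf (Polynomial.X * P) i = cf P (i + 1) := by
  unfold cf
  by_cases h : i + 1 ≤ 0
  · rw [if_pos (by omega), if_pos h]
    have h1 : (-i).toNat = (-(i + 1)).toNat + 1 := by omega
    rw [h1, Polynomial.coeff_X_mul]
  · rw [if_neg h]
    by_cases h0 : i ≤ 0
    · rw [if_pos h0]
      have h1 : (-i).toNat = 0 := by omega
      rw [h1]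
      simp
    · rw [if_neg h0]

theorem cf_pow (e j n : ℕ) (hj : j < n) :
    cf (Polynomial.X ^ e) (1 - (n : ℤ) + j) = if e + j + 1 = n then 1 else 0 := by
  unfold cf
  rw [if_pos (by omega)]
  have h1 : (-(1 - (n : ℤ) + j)).toNat = n - 1 - j := by omega
  rw [h1, Polynomial.coeff_X_pow]
  by_cases h : e + j + 1 = n
  · rw [if_pos h, if_pos (by omega)]
  · rw [if_neg h, if_neg (by omega)]

/-- the coefficient of `u^(-j)`, as a homomorphism -/
noncomputable def phi (j : ℕ) : M k →+ ℤ :=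
  QuotientAddGroup.lift (AddSubgroup.closure {r | Rel k r})
    (FreeAbelianGroup.lift (fun p : Aff k × ℤ => cf (V.β p.1) (p.2 + j))) (by
      intro a ha
      have h1 : AddSubgroup.closure {r | Rel k r} ≤
          (FreeAbelianGroup.lift (fun p : Aff k × ℤ => cf (V.β p.1) (p.2 + j))).ker := by
        rw [AddSubgroup.closure_le]
        rintro r hr
        rw [SetLike.mem_coe, AddMonoidHom.mem_ker]
        cases hr with
        | iso X Y i h =>
          rw [map_sub, FreeAbelianGroup.lift_apply_of, FreeAbelianGroup.lift_apply_of, V.iso X Y h,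
            sub_self]
        | cut X Z U i h =>
          rw [map_sub, map_sub, FreeAbelianGroup.lift_apply_of, FreeAbelianGroup.lift_apply_of,
            FreeAbelianGroup.lift_apply_of, V.cut X Z U h, cf_add]
          ring
        | line X Y i h =>
          rw [map_sub, FreeAbelianGroup.lift_apply_of, FreeAbelianGroup.lift_apply_of, V.line X Y h,
            cf_X_mul, show i + (j : ℤ) + 1 = i + 1 + j by ring, sub_self]
      exact h1 ha)

theorem phi_cls (j : ℕ) (X : Aff k) (i : ℤ) : phi V j (cls X i) = cf (V.β X) (i + j) := by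
  unfold phi cls
  exact FreeAbelianGroup.lift_apply_of _ _

theorem phi_fil (j : ℕ) (a : M k) (ha : a ∈ Fil k (j + 1)) : phi V j a = 0 := by
  have h1 : Fil k (j + 1) ≤ (phi V j).ker := by
    unfold Fil
    rw [AddSubgroup.closure_le]
    rintro a ⟨X, i, D, h1, h2, rfl⟩
    rw [SetLike.mem_coe, AddMonoidHom.mem_ker, phi_cls]
    unfold cf
    rw [if_pos (by omega)]
    apply Polynomial.coeff_eq_zero_of_natDegree_lt
    have := V.degree X D h1
    omega
  exact h1 ha

theorem beta_affine (j : ℕ) : V.β (affineSpace k j) = Polynomial.X ^ j := by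
  induction j with
  | zero =>
    rw [pow_zero]
    exact V.point _ ⟨MvPolynomial.isEmptyAlgEquiv k (Fin 0)⟩
  | succ j ih =>
    rw [V.line (affineSpace k j) (affineSpace k (j + 1))
      ⟨(MvPolynomial.finSuccEquiv k j).symm⟩, ih, pow_succ']

theorem phi_proj (j n : ℕ) (hn : j < n) :
    phi V j (∑ l ∈ Finset.range n, cls (affineSpace k l) (1 - n)) = 1 := by
  rw [map_sum, Finset.sum_eq_single (n - 1 - j)]
  · rw [phi_cls, beta_affine, cf_pow _ _ _ hn, if_pos (by omega)]
  · intro l _ hl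
    rw [phi_cls, beta_affine, cf_pow _ _ _ hn, if_neg (by omega)]
  · intro h
    exact absurd (Finset.mem_range.2 (by omega)) h

theorem eq_of_hasLimit (x : ℕ → M k) (h : HasLimit k x) (j : ℕ) :
    ∃ (c : ℤ) (N : ℕ), ∀ n, N ≤ n → phi V j (x n) = c := by
  obtain ⟨y, -, hy⟩ := h
  obtain ⟨N, hN⟩ := hy (j + 1)
  refine ⟨phi V j (x N), N, fun n hn => ?_⟩
  have h1 : (QuotientAddGroup.mk (x n) : M k ⧸ Fil k (j + 1)) = QuotientAddGroup.mk (x N) := by
    rw [hN n hn, hN N le_rfl]
  rw [QuotientAddGroup.eq] at h1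
  have h2 := phi_fil V j _ h1
  rw [map_add, map_neg] at h2
  omega

theorem eq_of_tends_zero (x : ℕ → M k) (h : Tends k x 0) (j : ℕ) :
    ∃ N : ℕ, ∀ n, N ≤ n → phi V j (x n) = 0 := by
  obtain ⟨N, hN⟩ := h (j + 1)
  refine ⟨N, fun n hn => ?_⟩
  have h1 : (QuotientAddGroup.mk (x n) : M k ⧸ Fil k (j + 1)) = 0 := hN n hn
  rw [QuotientAddGroup.eq_zero_iff] at h1
  exact phi_fil V j _ h1

end hom

section pts

variable {k : Type} [Field k] [Algebra k ℝ] (V : VirtualPoincare k)

/-- the point of the stratum -/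
noncomputable def pt {n : ℕ} (i : ℕ) (y : Fin (n - i) → ℝ) (j : Fin (n + 1)) : ℝ :=
  if h : i < (j : ℕ) then y (⟨(j : ℕ) - i - 1, by omega⟩ : Fin (n - i))
    else if (j : ℕ) = i then 1 else 0

theorem aeval_restr {n : ℕ} (i : ℕ) (F : MvPolynomial (Fin (n + 1)) k) (y : Fin (n - i) → ℝ) :
    aeval y (restr i F) = aeval (pt i y) F := by
  unfold restr
  have h1 : (aeval y : MvPolynomial (Fin (n - i)) k →ₐ[k] ℝ).comp
      (aeval (fun j : Fin (n + 1) =>
        if h : i < (j : ℕ) then X (⟨(j : ℕ) - i - 1, by omega⟩ : Fin (n - i))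
        else if (j : ℕ) = i then 1 else 0)) = aeval (pt i y) := by
    apply MvPolynomial.algHom_ext
    intro j
    rw [AlgHom.comp_apply, aeval_X, aeval_X]
    unfold pt
    split_ifs <;> simp
  exact congrArg (fun f => f F) h1

theorem noPoint {m : ℕ} (F : MvPolynomial (Fin m) k)
    (h : ∀ y : Fin m → ℝ, aeval y F ≠ 0) : V.β (zeros F) = 0 := by
  apply V.empty
  constructor
  intro f
  let g : MvPolynomial (Fin m) k →ₐ[k] ℝ :=
    AlgHom.comp (f : (MvPolynomial (Fin m) k ⧸ (Ideal.span {F}).radical) →ₐ[k] ℝ)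
      (Ideal.Quotient.mkₐ k (Ideal.span {F}).radical)
  have h1 : g = aeval (fun i => g (X i)) := by
    apply MvPolynomial.algHom_ext
    intro i
    rw [aeval_X]
  have h2 : g F = 0 := by
    have h3 : Ideal.Quotient.mkₐ k (Ideal.span {F}).radical F = 0 := by
      rw [Ideal.Quotient.mkₐ_eq_mk, Ideal.Quotient.eq_zero_iff_mem]
      exact Ideal.le_radical (Ideal.subset_span rfl)
    change f (Ideal.Quotient.mkₐ k (Ideal.span {F}).radical F) = 0
    rw [h3]
    exact map_zero f
  rw [h1] at h2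
  exact h _ h2

/-- a hypersurface without real points -/
theorem phi_aniso (j : ℕ) {n : ℕ} (F : MvPolynomial (Fin (n + 1)) k)
    (h : ∀ x : Fin (n + 1) → ℝ, aeval x F = 0 → x = 0) (e : ℤ) :
    phi V j (∑ i ∈ Finset.range (n + 1), cls (zeros (restr i F)) e) = 0 := by
  rw [map_sum]
  apply Finset.sum_eq_zero
  intro i hi
  rw [Finset.mem_range] at hi
  rw [phi_cls, noPoint, cf_zero]
  intro y hy
  rw [aeval_restr] at hy
  have h1 := congrFun (h _ hy) ⟨i, hi⟩
  unfold pt at h1
  simp at h1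

theorem phi_xseq_aniso (F : ∀ n, MvPolynomial (Fin (n + 1)) k) (j n : ℕ) (hn : j < n)
    (h : ∀ x : Fin (n + 1) → ℝ, aeval x (F n) = 0 → x = 0) : phi V j (xseq F n) = -1 := by
  unfold xseq
  rw [map_sub, phi_aniso V j (F n) h, phi_proj V j n hn]
  norm_num

end pts

end Pool.Agent.T9h5.KV
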