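import Pool.Agent.T9h5.KV.Main

/-!
# Quadrics
-/

set_option autoImplicit false

namespace Pool.Agent.T9h5.KV

open MvPolynomial

section

variable (k : Type) [Field k]

theorem fermat_smooth [CharZero k] (d n : ℕ) (hd : 2 ≤ d) : IsSmooth d (fermat k d n) := by
  refine ⟨?_, ?_⟩
  · unfold fermat
    apply MvPolynomial.IsHomogeneous.sum
    intro i _
    simpa using (isHomogeneous_X k i).pow d
  · intro x _ h
    funext i
    have h1 := h i
    have h2 : pderiv i (fermat k d n) = (d : MvPolynomial (Fin (n + 1)) k) * X i ^ (d - 1) := by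
      unfold fermat
      rw [map_sum, Finset.sum_eq_single i]
      · rw [Derivation.leibniz_pow, pderiv_X_self]
        simp [nsmul_eq_mul]
      · intro j _ hj
        rw [Derivation.leibniz_pow, pderiv_X_of_ne hj]
        simp
      · intro h
        exact absurd (Finset.mem_univ _) h
    rw [h2, map_mul, map_natCast, map_pow, aeval_X] at h1
    have : CharZero (AlgebraicClosure k) := charZero_of_injective_algebraMap
      (algebraMap k (AlgebraicClosure k)).injective
    rcases mul_eq_zero.1 h1 with h3 | h3
    · exfalso
      have : (d : AlgebraicClosure k) ≠ 0 := by exact_mod_cast (by omega : d ≠ 0)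
      exact this h3
    · exact pow_eq_zero_iff (by omega) |>.1 h3

theorem pderiv_quad (n w : ℕ) (j : Fin (n + 1)) : pderiv j (quad k n w) =
    (∑ l ∈ Finset.univ.filter (fun l : Fin (n + 1) => (l : ℕ) < w),
      (X l * (if l.rev = j then 1 else 0) + X l.rev * (if l = j then 1 else 0))) +
    ∑ l ∈ Finset.univ.filter (fun l : Fin (n + 1) => w ≤ (l : ℕ) ∧ (l : ℕ) + w ≤ n), 2 * X l * (if l = j then 1 else 0) := by
  unfold quad
  rw [map_add, map_sum, map_sum]
  congr 1
  · apply Finset.sum_congr rfl
    intro l _
    rw [Derivation.leibniz, pderiv_X, pderiv_X]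
    simp only [Pi.single_apply, smul_eq_mul, eq_comm]
  · apply Finset.sum_congr rfl
    intro l _
    rw [Derivation.leibniz_pow, pderiv_X]
    simp only [Pi.single_apply, smul_eq_mul, nsmul_eq_mul, eq_comm]
    norm_num

theorem quad_smooth (h2k : (2 : k) ≠ 0) (n w : ℕ) (hw : 2 * w ≤ n + 1) :
    IsSmooth 2 (quad k n w) := by
  refine ⟨?_, ?_⟩
  · unfold quad
    apply MvPolynomial.IsHomogeneous.add
    · apply MvPolynomial.IsHomogeneous.sum
      intro i _
      exact (isHomogeneous_X k _).mul (isHomogeneous_X k _)
    · apply MvPolynomial.IsHomogeneous.sum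
      intro i _
      simpa using (isHomogeneous_X k _).pow 2
  · intro x _ h
    have h2K : (2 : AlgebraicClosure k) ≠ 0 := by
      intro h0
      apply h2k
      apply (algebraMap k (AlgebraicClosure k)).injective
      rw [map_ofNat, map_zero, h0]
    have hrev : ∀ l : Fin (n + 1), (l.rev : ℕ) = n - l := fun l => by
      rw [Fin.val_rev]
      omega
    -- small indices
    have h1 : ∀ j : Fin (n + 1), (j : ℕ) < w → x j.rev = 0 := by
      intro j hj
      have h2 := h j
      rw [pderiv_quad] at h2
      rw [Finset.sum_eq_single j, Finset.sum_eq_zero] at h2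
      · have h3 : j.rev ≠ j := by
          intro h4
          have := congrArg Fin.val h4
          rw [hrev] at this
          omega
        simpa [h3] using h2
      · intro l hl
        rw [Finset.mem_filter] at hl
        rw [if_neg (by rintro rfl; omega), mul_zero]
      · intro l hl hlj
        rw [Finset.mem_filter] at hl
        rw [if_neg hlj, if_neg, mul_zero, mul_zero, add_zero]
        intro h4
        have := congrArg Fin.val h4
        rw [hrev] at this
        omega
      · intro h3
        exact (h3 (by rw [Finset.mem_filter]; exact ⟨Finset.mem_univ _, hj⟩)).elim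
    -- large indices
    have h1' : ∀ j : Fin (n + 1), (j : ℕ) < w → x j = 0 := by
      intro j hj
      have h2 := h j.rev
      rw [pderiv_quad] at h2
      rw [Finset.sum_eq_single j, Finset.sum_eq_zero] at h2
      · have h3 : j ≠ j.rev := by
          intro h4
          have := congrArg Fin.val h4
          rw [hrev] at this
          omega
        simpa [h3] using h2
      · intro l hl
        rw [Finset.mem_filter] at hl
        rw [if_neg, mul_zero]
        rintro rfl
        have := hrev j
        omega
      · intro l hl hlj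
        rw [Finset.mem_filter] at hl
        rw [if_neg, if_neg, mul_zero, mul_zero, add_zero]
        · intro h4
          have := congrArg Fin.val h4
          rw [hrev] at this
          omega
        · intro h4
          exact hlj (Fin.rev_injective h4)
      · intro h3
        exact (h3 (by rw [Finset.mem_filter]; exact ⟨Finset.mem_univ _, hj⟩)).elim
    have h2 : ∀ j : Fin (n + 1), w ≤ (j : ℕ) → (j : ℕ) + w ≤ n → x j = 0 := by
      intro j hj hj'
      have h2 := h j
      rw [pderiv_quad, Finset.sum_eq_zero, Finset.sum_eq_single j] at h2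
      · simp [h2K] at h2
        exact h2
      · intro l _ hlj
        rw [if_neg hlj, mul_zero]
      · intro h3
        exact absurd (Finset.mem_filter.2 ⟨Finset.mem_univ _, hj, hj'⟩) h3
      · intro l hl
        rw [Finset.mem_filter] at hl
        rw [if_neg, if_neg, mul_zero, mul_zero, add_zero]
        · rintro rfl
          omega
        · rintro rfl
          have := hrev l
          omega
    funext j
    rcases lt_or_ge (j : ℕ) w with h3 | h3
    · exact h1' j h3
    · rcases le_or_gt ((j : ℕ) + w) n with h4 | h4
      · exact h2 j h3 h4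
      · have h5 := h1 j.rev (by rw [hrev]; omega)
        rwa [Fin.rev_rev] at h5

end

section

variable {k : Type} [Field k]

theorem iso_of {m : ℕ} {B : Type} [CommRing B] [IsDomain B] [Algebra k B]
    (F : MvPolynomial (Fin m) k) (f : MvPolynomial (Fin m) k →ₐ[k] B)
    (hs : Function.Surjective f) (hk : RingHom.ker f = Ideal.span {F}) :
    Nonempty ((zeros F).O ≃ₐ[k] B) := by
  have h1 : (RingHom.ker f).IsPrime := RingHom.ker_isPrime f
  have h2 : (Ideal.span {F}).radical = RingHom.ker f := by
    rw [← hk]
    exact h1.radical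
  exact ⟨(Ideal.quotientEquivAlgOfEq k h2).trans (Ideal.quotientKerAlgEquivOfSurjective hs)⟩

theorem iso_zero (m : ℕ) : Iso (zeros (0 : MvPolynomial (Fin m) k)) (affineSpace k m) := by
  refine iso_of (B := MvPolynomial (Fin m) k) 0 (AlgHom.id k _) Function.surjective_id ?_
  ext p
  rw [RingHom.mem_ker, Ideal.mem_span_singleton, zero_dvd_iff]
  rfl

theorem iso_linear {m : ℕ} (a : Fin (m + 1)) (g : MvPolynomial (Fin (m + 1)) k)
    (hg : g - X a ∈ supported k ({a}ᶜ : Set (Fin (m + 1)))) : Iso (zeros g) (affineSpace k m) := by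
  classical
  let S := supported k ({a}ᶜ : Set (Fin (m + 1)))
  let h : S := ⟨g - X a, hg⟩
  let π : MvPolynomial (Fin (m + 1)) k →ₐ[k] S :=
    aeval (fun j => if hj : j = a then -h else ⟨X j, Algebra.subset_adjoin ⟨j, hj, rfl⟩⟩)
  have hπa : π (X a) = -h := by
    change aeval _ (X a) = _
    rw [aeval_X, dif_pos rfl]
  have hπj : ∀ j, j ≠ a → ((π (X j) : S) : MvPolynomial (Fin (m + 1)) k) = X j := by
    intro j hj
    change ((aeval _ (X j) : S) : MvPolynomial (Fin (m + 1)) k) = _
    rw [aeval_X, dif_neg hj]
  have hπS : ∀ p ∈ S, ((π p : S) : MvPolynomial (Fin (m + 1)) k) = p := by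
    intro p hp
    refine Algebra.adjoin_induction (p := fun x _ =>
      ((π x : S) : MvPolynomial (Fin (m + 1)) k) = x) ?_ ?_ ?_ ?_ hp
    · rintro _ ⟨j, hj, rfl⟩
      exact hπj j hj
    · intro r
      rw [AlgHom.commutes]
      rfl
    · intro x y _ _ hx hy
      rw [map_add, Subalgebra.coe_add, hx, hy]
    · intro x y _ _ hx hy
      rw [map_mul, Subalgebra.coe_mul, hx, hy]
  have hs : Function.Surjective π := fun s => ⟨s, Subtype.ext (hπS s s.2)⟩
  have hg0 : π g = 0 := by
    have h1 : g = X a + (g - X a) := by ring
    have h2 : π (g - X a) = h := Subtype.ext (hπS _ hg)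
    rw [h1, map_add, hπa, h2]
    exact neg_add_cancel h
  have hmk : ((Ideal.Quotient.mkₐ k (Ideal.span {g})).comp (S.val.comp π)) =
      Ideal.Quotient.mkₐ k (Ideal.span {g}) := by
    apply MvPolynomial.algHom_ext
    intro j
    rw [AlgHom.comp_apply, AlgHom.comp_apply]
    by_cases hj : j = a
    · subst hj
      rw [hπa]
      change Ideal.Quotient.mkₐ k (Ideal.span {g}) (-(g - X j)) = _
      have h3 : Ideal.Quotient.mkₐ k (Ideal.span {g}) g = 0 := by
        rw [Ideal.Quotient.mkₐ_eq_mk, Ideal.Quotient.eq_zero_iff_mem]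
        exact Ideal.subset_span rfl
      rw [map_neg, map_sub, h3]
      ring
    · change Ideal.Quotient.mkₐ k (Ideal.span {g})
        ((π (X j) : S) : MvPolynomial (Fin (m + 1)) k) = _
      rw [hπj j hj]
  have hk : RingHom.ker π = Ideal.span {g} := by
    apply le_antisymm
    · intro p hp
      rw [RingHom.mem_ker] at hp
      have h1 := congrArg (fun f => f p) hmk
      change Ideal.Quotient.mkₐ k (Ideal.span {g})
        ((π p : S) : MvPolynomial (Fin (m + 1)) k) = Ideal.Quotient.mkₐ k (Ideal.span {g}) p at h1
      rw [hp] at h1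
      rw [← Ideal.Quotient.eq_zero_iff_mem, ← Ideal.Quotient.mkₐ_eq_mk k, ← h1]
      exact map_zero _
    · rw [Ideal.span_singleton_le_iff_mem, RingHom.mem_ker]
      exact hg0
  obtain ⟨e⟩ := iso_of g π hs hk
  let e2 : Fin m ≃ ({a}ᶜ : Set (Fin (m + 1))) :=
    (finSuccAboveEquiv a).trans (Equiv.subtypeEquivRight (fun x => by simp))
  exact ⟨(e.trans (supportedEquivMvPolynomial _)).trans (renameEquiv k e2.symm)⟩

theorem iso_linear' {r m : ℕ} (hr : r = m + 1) (a : Fin r) (g : MvPolynomial (Fin r) k)
    (hg : g - X a ∈ supported k ({a}ᶜ : Set (Fin r))) : Iso (zeros g) (affineSpace k m) := by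
  subst hr
  exact iso_linear a g hg

end

end Pool.Agent.T9h5.KV
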