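import Pool.Agent.T9h5.KV.Quad

/-!
# The strata of the quadrics
-/

set_option autoImplicit false

namespace Pool.Agent.T9h5.KV

open MvPolynomial

theorem rev_val {n : ℕ} (l : Fin (n + 1)) : (l.rev : ℕ) = n - l := by
  rw [Fin.val_rev]
  omega

section

variable {k : Type} [Field k]

/-- the substitution -/
noncomputable def sub (k : Type) [Field k] {n : ℕ} (i : ℕ) (j : Fin (n + 1)) :
    MvPolynomial (Fin (n - i)) k :=
  if h : i < (j : ℕ) then X (⟨(j : ℕ) - i - 1, by omega⟩ : Fin (n - i))
    else if (j : ℕ) = i then 1 else 0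

theorem restr_quad (n w i : ℕ) : restr i (quad k n w) =
    ∑ l ∈ Finset.univ.filter (fun l : Fin (n + 1) => (l : ℕ) < w), sub k i l * sub k i l.rev +
    ∑ l ∈ Finset.univ.filter (fun l : Fin (n + 1) => w ≤ (l : ℕ) ∧ (l : ℕ) + w ≤ n),
      sub k i l ^ 2 := by
  have h1 : ∀ F : MvPolynomial (Fin (n + 1)) k, restr i F = aeval (sub k i) F := fun _ => rfl
  rw [h1]
  unfold quad
  rw [map_add, map_sum, map_sum]
  congr 1
  · apply Finset.sum_congr rfl
    intro l _
    rw [map_mul, aeval_X, aeval_X]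
  · apply Finset.sum_congr rfl
    intro l _
    rw [map_pow, aeval_X]

theorem sub_lt {n i : ℕ} (l : Fin (n + 1)) (h : (l : ℕ) < i) : sub k i l = 0 := by
  unfold sub
  rw [dif_neg (by omega), if_neg (by omega)]

theorem sub_eq {n i : ℕ} (l : Fin (n + 1)) (h : (l : ℕ) = i) : sub k i l = 1 := by
  unfold sub
  rw [dif_neg (by omega), if_pos h]

theorem iso_small (n w i : ℕ) (hw : 2 * w ≤ n + 1) (hi : i < w) :
    Iso (zeros (restr i (quad k n w))) (affineSpace k (n - 1 - i)) := by
  classical
  have ha : n - i - i - 1 < n - i := by omega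
  refine iso_linear' (by omega) ⟨n - i - i - 1, ha⟩ _ ?_
  have hsup : ∀ j : Fin (n + 1), (j : ℕ) ≠ n - i →
      sub k i j ∈ supported k ({(⟨n - i - i - 1, ha⟩ : Fin (n - i))}ᶜ : Set (Fin (n - i))) := by
    intro j hj
    unfold sub
    split_ifs with h1 h2
    · apply Algebra.subset_adjoin
      refine ⟨_, ?_, rfl⟩
      intro h3
      have h4 := congrArg Fin.val h3
      simp only at h4
      omega
    · exact one_mem _
    · exact zero_mem _
  rw [restr_quad]
  have hil : i < n + 1 := by omega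
  rw [← Finset.add_sum_erase _ _ (a := (⟨i, hil⟩ : Fin (n + 1)))
    (by rw [Finset.mem_filter]; exact ⟨Finset.mem_univ _, hi⟩)]
  have h1 : sub k i (⟨i, hil⟩ : Fin (n + 1)) = 1 := sub_eq _ rfl
  have h2 : sub k i (Fin.rev (⟨i, hil⟩ : Fin (n + 1))) = X ⟨n - i - i - 1, ha⟩ := by
    have h3 : i < ((Fin.rev (⟨i, hil⟩ : Fin (n + 1)) : Fin (n + 1)) : ℕ) := by
      rw [rev_val]
      change i < n - i
      omega
    unfold sub
    rw [dif_pos h3]
    congr 1
    apply Fin.ext
    change ((Fin.rev (⟨i, hil⟩ : Fin (n + 1)) : Fin (n + 1)) : ℕ) - i - 1 = n - i - i - 1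
    rw [rev_val]
  rw [h1, h2, one_mul]
  have h3 : ∀ a b c : MvPolynomial (Fin (n - i)) k, a + b + c - a = b + c := by
    intro a b c
    ring
  rw [h3]
  apply add_mem
  · apply sum_mem
    intro l hl
    rw [Finset.mem_erase, Finset.mem_filter] at hl
    obtain ⟨hl1, -, hl2⟩ := hl
    apply mul_mem
    · exact hsup _ (by omega)
    · apply hsup
      rw [rev_val]
      intro h4
      apply hl1
      apply Fin.ext
      change (l : ℕ) = i
      have := l.2
      omega
  · apply sum_mem
    intro l hl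
    rw [Finset.mem_filter] at hl
    exact pow_mem (hsup _ (by omega)) 2

theorem restr_large (n w i : ℕ) (hi : n < i + w) (hw : 2 * w ≤ n + 1) :
    restr i (quad k n w) = 0 := by
  rw [restr_quad, Finset.sum_eq_zero, Finset.sum_eq_zero, add_zero]
  · intro l hl
    rw [Finset.mem_filter] at hl
    rw [sub_lt l (by omega)]
    ring
  · intro l hl
    rw [Finset.mem_filter] at hl
    rw [sub_lt l (by omega), zero_mul]

theorem iso_large (n w i : ℕ) (hi : n < i + w) (hw : 2 * w ≤ n + 1) :
    Iso (zeros (restr i (quad k n w))) (affineSpace k (n - i)) := by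
  rw [restr_large n w i hi hw]
  exact iso_zero _

end

section real

variable {k : Type} [Field k] [Algebra k ℝ] (V : VirtualPoincare k)

theorem pt_lt {n i : ℕ} (y : Fin (n - i) → ℝ) (l : Fin (n + 1)) (h : (l : ℕ) < i) :
    pt i y l = 0 := by
  unfold pt
  rw [dif_neg (by omega), if_neg (by omega)]

theorem beta_mid (n w i : ℕ) (hi : w ≤ i) (hi' : i + w ≤ n) :
    V.β (zeros (restr i (quad k n w))) = 0 := by
  apply noPoint
  intro y hy
  rw [aeval_restr] at hy
  unfold quad at hy
  rw [map_add, map_sum, map_sum, Finset.sum_eq_zero, zero_add] at hy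
  · rw [Finset.sum_eq_zero_iff_of_nonneg] at hy
    · have hil : i < n + 1 := by omega
      have h1 := hy ⟨i, hil⟩ (by
        rw [Finset.mem_filter]
        exact ⟨Finset.mem_univ _, hi, hi'⟩)
      rw [map_pow, aeval_X] at h1
      unfold pt at h1
      simp at h1
    · intro l _
      rw [map_pow]
      positivity
  · intro l hl
    rw [Finset.mem_filter] at hl
    rw [map_mul, aeval_X, pt_lt y l (by omega), zero_mul]

theorem phi_quad (n w j : ℕ) (hw : 2 * w ≤ n + 1) (hj : 2 * j + 2 ≤ n) :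
    phi V j (∑ i ∈ Finset.range (n + 1), cls (zeros (restr i (quad k n w))) (1 - n)) =
      if j < w then 1 else 0 := by
  rw [map_sum]
  have h1 : ∀ i ∈ Finset.range (n + 1),
      phi V j (cls (zeros (restr i (quad k n w))) (1 - n)) = if i = j ∧ j < w then 1 else 0 := by
    intro i hi
    rw [Finset.mem_range] at hi
    rw [phi_cls]
    rcases lt_or_ge i w with h2 | h2
    · rw [V.iso _ _ (iso_small n w i hw h2), beta_affine, cf_pow _ _ _ (by omega)]
      by_cases h3 : i = j
      · subst h3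
        rw [if_pos (by omega), if_pos ⟨rfl, h2⟩]
      · rw [if_neg (by omega), if_neg (by tauto)]
    · rw [if_neg (by omega)]
      rcases le_or_gt (i + w) n with h3 | h3
      · rw [beta_mid V n w i h2 h3, cf_zero]
      · rw [V.iso _ _ (iso_large n w i h3 hw), beta_affine, cf_pow _ _ _ (by omega),
          if_neg (by omega)]
  rw [Finset.sum_congr rfl h1]
  by_cases h2 : j < w
  · simp only [h2, and_true, if_true]
    rw [Finset.sum_ite_eq' (Finset.range (n + 1)) j, if_pos (Finset.mem_range.2 (by omega))]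
  · simp [h2]

theorem phi_xseq_quad (w : ℕ → ℕ) (n j : ℕ) (hw : 2 * w n ≤ n + 1) (hj : 2 * j + 2 ≤ n) :
    phi V j (xseq (fun n => quad k n (w n)) n) = if j < w n then 0 else -1 := by
  unfold xseq
  rw [map_sub, phi_quad V n (w n) j hw hj, phi_proj V j n (by omega)]
  split_ifs <;> norm_num

include V in
/-- convergence -/
theorem quad_limit (w : ℕ → ℕ) (hw : ∀ n, 2 * w n ≤ n + 1)
    (h : HasLimit k (xseq (fun n => quad k n (w n)))) :
    (∀ c, ∃ N, ∀ n, N ≤ n → c ≤ w n) ∨ ∃ c N, ∀ n, N ≤ n → w n = c := by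
  by_cases hall : ∀ j, ∃ N, ∀ n, N ≤ n → j < w n
  · left
    intro c
    obtain ⟨N, hN⟩ := hall c
    exact ⟨N, fun n hn => (hN n hn).le⟩
  · right
    have hdec : ∀ j, (∃ N, ∀ n, N ≤ n → j < w n) ∨ (∃ N, ∀ n, N ≤ n → w n ≤ j) := by
      intro j
      obtain ⟨c, N, hN⟩ := eq_of_hasLimit V _ h j
      by_cases hc : c = 0
      · left
        refine ⟨max N (2 * j + 2), fun n hn => ?_⟩
        have h1 := hN n (le_trans (le_max_left _ _) hn)
        rw [phi_xseq_quad V w n j (hw n) (le_trans (le_max_right _ _) hn)] at h1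
        by_contra h2
        rw [if_neg h2, hc] at h1
        omega
      · right
        refine ⟨max N (2 * j + 2), fun n hn => ?_⟩
        have h1 := hN n (le_trans (le_max_left _ _) hn)
        rw [phi_xseq_quad V w n j (hw n) (le_trans (le_max_right _ _) hn)] at h1
        by_contra h2
        rw [if_pos (by omega)] at h1
        exact hc h1.symm
    push Not at hall
    have hex : ∃ j, ∃ N, ∀ n, N ≤ n → w n ≤ j := by
      obtain ⟨j, hj⟩ := hall
      rcases hdec j with h1 | h1
      · obtain ⟨N, hN⟩ := h1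
        obtain ⟨n, hn, h2⟩ := hj N
        exact absurd (hN n hn) (by omega)
      · exact ⟨j, h1⟩
    classical
    obtain ⟨N, hN⟩ := Nat.find_spec hex
    rcases Nat.eq_zero_or_pos (Nat.find hex) with h0 | h0
    · refine ⟨0, N, fun n hn => ?_⟩
      have := hN n hn
      omega
    · have h1 := Nat.find_min hex (m := Nat.find hex - 1) (by omega)
      rcases hdec (Nat.find hex - 1) with h2 | h2
      · obtain ⟨N', hN'⟩ := h2
        refine ⟨Nat.find hex, max N N', fun n hn => ?_⟩
        have h3 := hN n (le_trans (le_max_left _ _) hn)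
        have h4 := hN' n (le_trans (le_max_right _ _) hn)
        omega
      · exact absurd h2 h1

include V in
theorem quad_zero (w : ℕ → ℕ) (hw : ∀ n, 2 * w n ≤ n + 1)
    (h : Tends k (xseq (fun n => quad k n (w n))) 0) : ∀ c, ∃ N, ∀ n, N ≤ n → c ≤ w n := by
  intro c
  obtain ⟨N, hN⟩ := eq_of_tends_zero V _ h c
  refine ⟨max N (2 * c + 2), fun n hn => ?_⟩
  have h1 := hN n (le_trans (le_max_left _ _) hn)
  rw [phi_xseq_quad V w n c (hw n) (le_trans (le_max_right _ _) hn)] at h1
  by_contra h2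
  rw [if_neg (by omega)] at h1
  omega

end real

section pos

variable {k : Type} [Field k]

theorem dim_zeros {m : ℕ} (F : MvPolynomial (Fin m) k) : ringKrullDim (zeros F).O ≤ m := by
  have h1 : ringKrullDim (MvPolynomial (Fin m) k ⧸ (Ideal.span {F}).radical) ≤
      ringKrullDim (MvPolynomial (Fin m) k) := ringKrullDim_quotient_le _
  have h2 : ringKrullDim (MvPolynomial (Fin m) k) = m := by
    rw [MvPolynomial.ringKrullDim_of_isNoetherianRing, ringKrullDim_eq_zero_of_field]
    simp
  rw [h2] at h1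
  exact h1

theorem dim_affine (m : ℕ) : ringKrullDim (affineSpace k m).O ≤ m := by
  have h2 : ringKrullDim (MvPolynomial (Fin m) k) = m := by
    rw [MvPolynomial.ringKrullDim_of_isNoetherianRing, ringKrullDim_eq_zero_of_field]
    simp
  exact h2.le

theorem cls_iso {X Y : Aff k} (h : Iso X Y) (i : ℤ) : cls X i = cls Y i := by
  unfold cls
  refine (QuotientAddGroup.eq (s := AddSubgroup.closure {r | Rel k r})).2 ?_
  rw [← neg_mem_iff]
  have h1 : -(-FreeAbelianGroup.of (X, i) + FreeAbelianGroup.of (Y, i)) =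
      FreeAbelianGroup.of (X, i) - FreeAbelianGroup.of (Y, i) := by abel
  rw [h1]
  exact AddSubgroup.subset_closure (Rel.iso X Y i h)

theorem mem_fil (X : Aff k) (D : ℕ) (hD : ringKrullDim X.O ≤ D) (i m : ℤ) (h : (D : ℤ) + i ≤ -m) :
    cls X i ∈ Fil k m :=
  AddSubgroup.subset_closure ⟨X, i, D, hD, h, rfl⟩

/-- the first `w` strata cancel -/
theorem xseq_mem (w : ℕ → ℕ) (n : ℕ) (hw : 2 * w n ≤ n + 1) (m : ℤ) (hm : m + 1 ≤ w n) :
    xseq (fun n => quad k n (w n)) n ∈ Fil k m := by
  unfold xseq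
  set W := w n with hW
  rcases Nat.eq_zero_or_pos n with hn | hn
  · subst hn
    have hW0 : W = 0 := by omega
    rw [Finset.sum_range_one, Finset.range_zero, Finset.sum_empty, sub_zero]
    apply mem_fil _ 0 (dim_zeros _)
    push_cast
    omega
  have h1 : ∑ i ∈ Finset.range (n + 1), cls (zeros (restr i (quad k n W))) (1 - n) =
      ∑ i ∈ Finset.range W, cls (affineSpace k (n - 1 - i)) (1 - n) +
      ∑ i ∈ Finset.Ico W (n + 1), cls (zeros (restr i (quad k n W))) (1 - n) := by
    simp only [Finset.range_eq_Ico]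
    rw [← Finset.sum_Ico_consecutive _ (Nat.zero_le W) (by omega : W ≤ n + 1)]
    congr 1
    apply Finset.sum_congr rfl
    intro i hi
    rw [Finset.mem_Ico] at hi
    exact cls_iso (iso_small n W i hw hi.2) _
  have h2 : ∑ j ∈ Finset.range n, cls (affineSpace k j) (1 - (n : ℤ)) =
      ∑ i ∈ Finset.range W, cls (affineSpace k (n - 1 - i)) (1 - n) +
      ∑ i ∈ Finset.Ico W n, cls (affineSpace k (n - 1 - i)) (1 - n) := by
    rw [← Finset.sum_range_reflect]
    simp only [Finset.range_eq_Ico]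
    rw [← Finset.sum_Ico_consecutive _ (Nat.zero_le W) (by omega : W ≤ n)]
  rw [h1, h2, add_sub_add_left_eq_sub]
  apply sub_mem
  · apply sum_mem
    intro i hi
    rw [Finset.mem_Ico] at hi
    apply mem_fil _ (n - i) (dim_zeros _)
    omega
  · apply sum_mem
    intro i hi
    rw [Finset.mem_Ico] at hi
    apply mem_fil _ (n - 1 - i) (dim_affine _)
    omega

theorem quad_tends (w : ℕ → ℕ) (hw : ∀ n, 2 * w n ≤ n + 1)
    (h : ∀ c, ∃ N, ∀ n, N ≤ n → c ≤ w n) : Tends k (xseq (fun n => quad k n (w n))) 0 := by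
  intro m
  obtain ⟨N, hN⟩ := h (m + 1).toNat
  refine ⟨N, fun n hn => ?_⟩
  change _ = (0 : M k ⧸ Fil k m)
  rw [QuotientAddGroup.eq_zero_iff]
  apply xseq_mem w n (hw n)
  have := hN n hn
  omega

end pos

end Pool.Agent.T9h5.KV
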